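import Pool.Agent.Helper76.TX.StU

/-!
# TD: modulo 2 the coprime path sum is the Hecke operator
-/

set_option autoImplicit false

namespace Pool.Agent.Helper83.TX

open Pool.Agent.Helper76.TX Pool.Agent.Helper14.CV Pool.Agent.Helper28.WK Pool.Agent.Helper78.TW

/-- Invariance under translations. -/
private theorem per {n : ℕ} {G : ℤ → ℤ → ZMod 2} (h : Sym 0 n G) (k p q : ℤ)
    (hpq : p ≠ 0 ∨ q ≠ 0) : G (p + k * q) q = G p q := by
  obtain ⟨c, hc⟩ := h.2 1 k 0 1 (by ring) (by simp) (by simp)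
  have h0 : G 1 0 = G 1 0 + c := by
    have := hc 1 0 (Or.inl one_ne_zero)
    simpa [act] using this
  have hc0 : c = 0 := by
    have := h0
    exact (left_eq_add.mp this)
  have h1 := hc p q hpq
  rw [hc0, add_zero] at h1
  rw [← h1]
  unfold act
  congr 1 <;> ring

/-- Sums over blocks. -/
private theorem sumBlock (m l : ℕ) (f : ℕ → ZMod 2) :
    ∑ x ∈ Finset.range (l * m), f x =
      ∑ j ∈ Finset.range l, ∑ b ∈ Finset.range m, f (b + j * m) := by
  induction l with
  | zero => simp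
  | succ l ih =>
    rw [Finset.sum_range_succ, ← ih, Nat.succ_mul, Finset.sum_range_add]
    congr 1
    refine Finset.sum_congr rfl fun b _ => ?_
    rw [add_comm]

/-- Multiplication by `l` permutes the residues prime to `m`. -/
private theorem sumPerm (m l : ℕ) (hm : 0 < m) (hl : Nat.Coprime l m) (f : ℕ → ZMod 2)
    (hf : ∀ x, f (x % m) = f x) :
    ∑ b ∈ (Finset.range m).filter (fun b => Nat.Coprime b m), f (l * b) =
      ∑ b ∈ (Finset.range m).filter (fun b => Nat.Coprime b m), f b := by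
  have hmaps : Set.MapsTo (fun b => (l * b) % m)
      ((Finset.range m).filter (fun b => Nat.Coprime b m))
      ((Finset.range m).filter (fun b => Nat.Coprime b m)) := by
    intro b hb
    simp only [Finset.coe_filter, Finset.mem_range, Set.mem_ofPred_eq] at hb ⊢
    refine ⟨Nat.mod_lt _ hm, ?_⟩
    have h1 : Nat.Coprime (l * b) m := Nat.Coprime.mul_left hl hb.2
    rwa [Nat.Coprime, ← Nat.gcd_rec, Nat.gcd_comm] 
  have hinj : Set.InjOn (fun b => (l * b) % m)
      ((Finset.range m).filter (fun b => Nat.Coprime b m)) := by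
    intro b hb b' hb' h
    simp only [Finset.coe_filter, Finset.mem_range, Set.mem_ofPred_eq] at hb hb'
    have h1 : l * b ≡ l * b' [MOD m] := h
    have h2 : b ≡ b' [MOD m] := Nat.ModEq.cancel_left_of_coprime (by rwa [Nat.gcd_comm]) h1
    exact Nat.ModEq.eq_of_lt_of_lt h2 hb.1 hb'.1
  refine Finset.sum_nbij (fun b => (l * b) % m) hmaps hinj ?_ ?_
  · exact Finset.surjOn_of_injOn_of_card_le _ hmaps hinj le_rfl
  · intro b _
    exact (hf (l * b)).symm

private theorem sdStep {n : ℕ} {G : ℤ → ℤ → ZMod 2} (h : Sym 0 n G) (m l : ℕ) (hm : 0 < m)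
    (hl : l.Prime) (hlm : ¬ l ∣ m) : SD m (Tl l 1 G) = SD (l * m) G := by
  have hcop : Nat.Coprime l m := (Nat.Prime.coprime_iff_not_dvd hl).mpr hlm
  have hl0 : (l : ℤ) ≠ 0 := by exact_mod_cast hl.ne_zero
  have hm0 : (m : ℤ) ≠ 0 := by exact_mod_cast hm.ne'
  -- first part
  have e1 : ∑ b ∈ (Finset.range m).filter (fun b => Nat.Coprime b m),
      (G ((l * b : ℕ) : ℤ) m - G 1 0) = SD m G := by
    unfold SD
    refine sumPerm m l hm hcop (fun x => G (x : ℤ) m - G 1 0) ?_
    intro x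
    have h1 : (x : ℤ) = ((x % m : ℕ) : ℤ) + ((x / m : ℕ) : ℤ) * (m : ℤ) := by
      have := Nat.mod_add_div x m
      have h2 : (x : ℤ) = ((x % m + m * (x / m) : ℕ) : ℤ) := by rw [this]
      rw [h2]
      push_cast
      ring
    show G ((x % m : ℕ) : ℤ) m - G 1 0 = G (x : ℤ) m - G 1 0
    rw [h1, per h _ _ _ (Or.inr hm0)]
  -- second part
  let F : ℕ → ZMod 2 := fun x => G (x : ℤ) ((l * m : ℕ) : ℤ) - G 1 0
  have e2 : ∑ b ∈ (Finset.range m).filter (fun b => Nat.Coprime b m),
      ∑ j ∈ Finset.range l, F (b + j * m) =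
      ∑ x ∈ Finset.range (l * m), if Nat.Coprime x m then F x else 0 := by
    rw [sumBlock, Finset.sum_comm (s := Finset.range l), Finset.sum_filter]
    refine Finset.sum_congr rfl fun b _ => ?_
    have : ∀ j : ℕ, Nat.Coprime (b + j * m) m ↔ Nat.Coprime b m := by
      intro j
      exact Nat.coprime_add_mul_right_left b m j
    simp only [this]
    split_ifs
    · rfl
    · simp
  have e3 : (∑ x ∈ Finset.range (l * m), if Nat.Coprime x m then F x else 0) =
      SD (l * m) G + ∑ x ∈ Finset.range (l * m), if (Nat.Coprime x m ∧ l ∣ x) then F x else 0 := by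
    unfold SD
    rw [Finset.sum_filter, ← Finset.sum_add_distrib]
    refine Finset.sum_congr rfl fun x _ => ?_
    have hx : Nat.Coprime x (l * m) ↔ (¬ l ∣ x ∧ Nat.Coprime x m) := by
      rw [Nat.coprime_mul_iff_right, Nat.coprime_comm, Nat.Prime.coprime_iff_not_dvd hl]
    by_cases h1 : l ∣ x <;> by_cases h2 : Nat.Coprime x m <;> simp [hx, h1, h2, F]
  have e4 : (∑ x ∈ Finset.range (l * m), if (Nat.Coprime x m ∧ l ∣ x) then F x else 0) =
      SD m G := by
    unfold SD
    rw [mul_comm l m, sumBlock, Finset.sum_filter]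
    refine Finset.sum_congr rfl fun b _ => ?_
    rw [Finset.sum_eq_single_of_mem 0 (Finset.mem_range.mpr hl.pos)]
    · have hc : Nat.Coprime (b * l) m ↔ Nat.Coprime b m := by
        rw [Nat.coprime_mul_iff_left]
        exact ⟨fun h => h.1, fun h => ⟨h, hcop⟩⟩
      have hF : F (b * l) = G (b : ℤ) m - G 1 0 := by
        show G ((b * l : ℕ) : ℤ) ((l * m : ℕ) : ℤ) - G 1 0 = _
        have := h.1 l b m hl0 (Or.inr hm0)
        rw [← this]
        push_cast
        rw [mul_comm (b : ℤ) l]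
      simp [hc, hF]
    · intro i hi hi0
      rw [if_neg]
      rintro ⟨-, h2⟩
      have h3 : l ∣ i := (Nat.dvd_add_left (Dvd.intro_left b rfl)).mp h2
      exact absurd (Nat.le_of_dvd (Nat.pos_of_ne_zero hi0) h3) (by simpa using hi)
  have e5 : SD m (Tl l 1 G) = ∑ b ∈ (Finset.range m).filter (fun b => Nat.Coprime b m),
      ((G ((l * b : ℕ) : ℤ) m - G 1 0) + ∑ j ∈ Finset.range l, F (b + j * m)) := by
    unfold SD
    refine Finset.sum_congr rfl fun b _ => ?_
    have h10 : G ((l : ℤ) * 1) 0 = G 1 0 := by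
      have := h.1 l 1 0 hl0 (Or.inl one_ne_zero)
      simpa using this
    have h11 : Tl l 1 G 1 0 = G 1 0 + ∑ _j ∈ Finset.range l, G 1 0 := by
      unfold Tl
      rw [h10]
      simp
    have h12 : ∀ j : ℕ, F (b + j * m) = G ((b : ℤ) + 1 * j * m) ((l : ℤ) * m) - G 1 0 := by
      intro j
      show G ((b + j * m : ℕ) : ℤ) ((l * m : ℕ) : ℤ) - G 1 0 = _
      push_cast
      rw [one_mul]
    rw [h11, Finset.sum_congr rfl fun j _ => h12 j, Finset.sum_sub_distrib]
    unfold Tl
    push_cast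
    ring
  rw [e5, Finset.sum_add_distrib, e1, e2, e3, e4]
  have : ∀ x y : ZMod 2, x + (y + x) = y := by decide
  exact this _ _

private theorem sdList (hk : StHkS) {n : ℕ} {G : ℤ → ℤ → ZMod 2} (h : Sym 0 n G) (L : List ℕ)
    (hL : ∀ l ∈ L, l.Prime ∧ l ≠ 2) (hN : L.Nodup) :
    Sym 0 n (TW L G) ∧ ∀ m : ℕ, 0 < m → (∀ l ∈ L, ¬ l ∣ m) →
      SD m (TW L G) = SD (L.prod * m) G := by
  induction L with
  | nil =>
    refine ⟨h, fun m _ _ => ?_⟩
    simp [TW]
  | cons l L ih =>
    have hN' := List.nodup_cons.mp hN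
    obtain ⟨i1, i2⟩ := ih (fun x hx => hL x (List.mem_cons_of_mem _ hx)) hN'.2
    have hl := hL l List.mem_cons_self
    refine ⟨hk (ZMod 2) _ n l _ hl.1 hl.2 i1, fun m hm hLm => ?_⟩
    have e1 : TW (l :: L) G = Tl l 1 (TW L G) := rfl
    rw [e1, sdStep i1 m l hm hl.1 (hLm l List.mem_cons_self),
      i2 (l * m) (Nat.mul_pos hl.1.pos hm) ?_, List.prod_cons]
    · congr 1
      ring
    · intro x hx hd
      rcases (Nat.Prime.dvd_mul (hL x (List.mem_cons_of_mem _ hx)).1).mp hd with h1 | h1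
      · have := (Nat.prime_dvd_prime_iff_eq (hL x (List.mem_cons_of_mem _ hx)).1 hl.1).mp h1
        exact hN'.1 (this ▸ hx)
      · exact hLm x (List.mem_cons_of_mem _ hx) h1

theorem hTd : StTd := by
  intro hk n d G hd hsq h
  have hd0 : d ≠ 0 := by
    rintro rfl
    simp at hd
  have hL : ∀ l ∈ d.primeFactorsList, l.Prime ∧ l ≠ 2 := by
    intro l hl
    refine ⟨Nat.prime_of_mem_primeFactorsList hl, ?_⟩
    rintro rfl
    have := Nat.dvd_of_mem_primeFactorsList hl
    exact absurd hd (by rw [Nat.not_odd_iff_even]; exact even_iff_two_dvd.mpr this)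
  have hN : d.primeFactorsList.Nodup :=
    (Nat.squarefree_iff_nodup_primeFactorsList hd0).mp hsq
  obtain ⟨-, h2⟩ := sdList hk h d.primeFactorsList hL hN
  have h3 := h2 1 one_pos (by
    intro l hl h1
    exact (hL l hl).1.one_lt.ne' (Nat.dvd_one.mp h1))
  rw [mul_one, Nat.prod_primeFactorsList hd0] at h3
  rw [← h3]
  generalize TW d.primeFactorsList G = H
  have : SD 1 H = H 0 1 - H 1 0 := by
    unfold SD
    simp
  rw [this]
  generalize H 1 0 = x
  generalize H 0 1 = y
  revert x y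
  decide

end Pool.Agent.Helper83.TX
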